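import Mathlib
import Pool.Agent.H721R2.Ivrii.Def

set_option autoImplicit false

/-!
Ivrii's conjecture for almost every linear image: statements of the steps.

For every table `Ω ⊆ ℝ^d` and almost every linear map `T` the phase points of period at most `d` of
the billiard in `T(Ω)` are a null set.
-/

namespace Pool.Agent.TH597.IV

open MeasureTheory Set Filter Topology
open scoped InnerProductSpace
open Pool.Agent.H721R2.Ivrii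

/-- The phase points of period at most `N`. -/
def PerLe {E : Type*} [NormedAddCommGroup E] [InnerProductSpace ℝ E] [CompleteSpace E]
    (Ω : Set E) (N : ℕ) : Set (E × E) :=
  {z | ∃ n ≤ N, ∃ p u : ℕ → E, Orbit Ω n p u ∧ (p 0, u 0) = z}

/-- A family of billiard trajectories in the tables `T(Ω)`, `T` near a given linear map. The
parameter is `z = (T, ζ)`; `x k z` are the vertices in the coordinates of `Ω`, so the vertices of
the trajectory are `T (x k z)`; `e k z` are the unit velocities, `τ k z` the lengths of the sides. -/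
structure Fam (E Z : Type*) [NormedAddCommGroup E] [InnerProductSpace ℝ E]
    [NormedAddCommGroup Z] [NormedSpace ℝ Z] where
  U : Set ((E →L[ℝ] E) × Z)
  hU : IsOpen U
  n : ℕ
  hn : 1 ≤ n
  x : ℕ → (E →L[ℝ] E) × Z → E
  e : ℕ → (E →L[ℝ] E) × Z → E
  τ : ℕ → (E →L[ℝ] E) × Z → ℝ
  cx : ∀ k ≤ n, ∀ z ∈ U, ContDiffAt ℝ 2 (x k) z
  ce : ∀ k ≤ n, ∀ z ∈ U, ContDiffAt ℝ 2 (e k) z
  cτ : ∀ k < n, ∀ z ∈ U, ContDiffAt ℝ 2 (τ k) z
  inv : ∀ z ∈ U, IsUnit z.1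
  τpos : ∀ k < n, ∀ z ∈ U, 0 < τ k z
  ee : ∀ k ≤ n, ∀ z ∈ U, ⟪e k z, e k z⟫_ℝ = 1
  step : ∀ k < n, ∀ z ∈ U, z.1 (x (k + 1) z - x k z) = τ k z • e k z
  refl : ∀ k < n, ∀ z ∈ U, ∀ ζ, ⟪e (k + 1) z - e k z, z.1 (fderiv ℝ (x (k + 1)) z ζ)⟫_ℝ = 0
  surj : ∀ z ∈ U, ∀ δ, ⟪e 0 z, δ⟫_ℝ = 0 → ∃ ζ : Z, fderiv ℝ (e 0) z (0, ζ) = δ

section
variable {E Z : Type*} [NormedAddCommGroup E] [InnerProductSpace ℝ E]
    [NormedAddCommGroup Z] [NormedSpace ℝ Z]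

/-- The closed trajectories. -/
def Fam.A (F : Fam E Z) : Set ((E →L[ℝ] E) × Z) :=
  {z | z ∈ F.U ∧ F.x F.n z = F.x 0 z ∧ F.e F.n z = F.e 0 z}

/-- The sides in the coordinates of `Ω`. -/
def Fam.Δ (F : Fam E Z) (k : ℕ) (z : (E →L[ℝ] E) × Z) : E := F.x (k + 1) z - F.x k z

/-- The quadratic form `∑ τ⁻¹ ⟪Δ, C Δ⟫`. -/
noncomputable def Fam.m (F : Fam E Z) (C : E →L[ℝ] E) (z : (E →L[ℝ] E) × Z) : ℝ :=
  ∑ k ∈ Finset.range F.n, (F.τ k z)⁻¹ * ⟪F.Δ k z, C (F.Δ k z)⟫_ℝ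

end

/-- First step: at almost every closed trajectory the forms `m` are stationary in the directions
which fix `T`. -/
def MCONST : Prop := ∀ (E Z : Type) [NormedAddCommGroup E] [InnerProductSpace ℝ E]
  [FiniteDimensional ℝ E] [NormedAddCommGroup Z] [NormedSpace ℝ Z] [FiniteDimensional ℝ Z]
  [MeasurableSpace ((E →L[ℝ] E) × Z)] [BorelSpace ((E →L[ℝ] E) × Z)]
  (μ : Measure ((E →L[ℝ] E) × Z)) [μ.IsAddHaarMeasure] (F : Fam E Z),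
  ∃ B ⊆ F.A, MeasurableSet B ∧ μ (F.A \ B) = 0 ∧
    ∀ z ∈ B, ∀ (C : E →L[ℝ] E) (η : Z), fderiv ℝ (F.m C) z (0, η) = 0

/-- The orthogonal projection onto the span of the basis vectors `b i`, `i ∈ J`. -/
noncomputable def PJ {E : Type*} [NormedAddCommGroup E] [InnerProductSpace ℝ E] {ι : Type*}
    [Fintype ι] (b : OrthonormalBasis ι ℝ E) (J : Finset ι) : E →L[ℝ] E :=
  ∑ i ∈ J, (innerSL ℝ (b i)).smulRight (b i)

/-- Linear algebra: `M = ∑ c_k Δ_k ⊗ Δ_k`, `c_k > 0`. For some finite set of coordinates `J` with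
projection `P` the operator `P M P + (1 - P)` is invertible and its inverse recovers the `Δ_k`. -/
def LINALG : Prop := ∀ (E : Type) [NormedAddCommGroup E] [InnerProductSpace ℝ E]
  [FiniteDimensional ℝ E] (n : ℕ) (c : ℕ → ℝ) (Δ : ℕ → E), (∀ k < n, 0 < c k) →
  ∀ (ι : Type) [Fintype ι] (b : OrthonormalBasis ι ℝ E) (M : E →L[ℝ] E),
  (∀ v, M v = ∑ k ∈ Finset.range n, (c k * ⟪Δ k, v⟫_ℝ) • Δ k) →
  ∃ J : Finset ι, IsUnit (PJ b J * M * PJ b J + (1 - PJ b J)) ∧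
    ∀ k < n, M (Ring.inverse (PJ b J * M * PJ b J + (1 - PJ b J)) (PJ b J (Δ k))) = Δ k

/-- Second step: the closed trajectories of period at most the dimension are negligible. -/
def NULL : Prop := ∀ (E Z : Type) [NormedAddCommGroup E] [InnerProductSpace ℝ E]
  [FiniteDimensional ℝ E] [NormedAddCommGroup Z] [NormedSpace ℝ Z] [FiniteDimensional ℝ Z]
  [MeasurableSpace ((E →L[ℝ] E) × Z)] [BorelSpace ((E →L[ℝ] E) × Z)]
  (μ : Measure ((E →L[ℝ] E) × Z)) [μ.IsAddHaarMeasure] (F : Fam E Z),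
  F.n ≤ Module.finrank ℝ E → μ F.A = 0

/-- The local families. -/
def LOC : Prop := ∀ (E : Type) [NormedAddCommGroup E] [InnerProductSpace ℝ E]
  [FiniteDimensional ℝ E] (Ω : Set E) (T : E →L[ℝ] E) (n : ℕ) (p u : ℕ → E), IsUnit T →
  Orbit (T '' Ω) n p u →
  ∃ (a b : E) (F : Fam E ((ℝ ∙ a)ᗮ × (ℝ ∙ b)ᗮ)), a ≠ 0 ∧ b ≠ 0 ∧ F.n = n ∧
    (∃ K, ∀ S : E →L[ℝ] E, LipschitzOnWith K (fun ζ : (ℝ ∙ a)ᗮ × (ℝ ∙ b)ᗮ =>
      (S (F.x 0 (S, ζ)), F.e 0 (S, ζ))) {ζ | (S, ζ) ∈ F.U}) ∧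
    ∀ᶠ w : (E →L[ℝ] E) × ((ℕ → E) × (ℕ → E)) in 𝓝 (T, (p, u)),
      Orbit (w.1 '' Ω) n w.2.1 w.2.2 →
        ∃ ζ, (w.1, ζ) ∈ F.A ∧ (w.1 (F.x 0 (w.1, ζ)), F.e 0 (w.1, ζ)) = (w.2.1 0, w.2.2 0)

/-- The theorem in terms of operators. -/
def OPER : Prop := ∀ (E : Type) [NormedAddCommGroup E] [InnerProductSpace ℝ E]
  [FiniteDimensional ℝ E] [MeasurableSpace E] [BorelSpace E]
  [MeasurableSpace (E →L[ℝ] E)] [BorelSpace (E →L[ℝ] E)]
  (μ : Measure (E →L[ℝ] E)) [μ.IsAddHaarMeasure] (Ω : Set E), 2 ≤ Module.finrank ℝ E →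
  ∀ᵐ T : E →L[ℝ] E ∂μ, IsUnit T →
    μH[(2 * Module.finrank ℝ E - 2 : ℕ)] (PerLe (T '' Ω) (Module.finrank ℝ E)) = 0

/-- The linear map with matrix `A`. -/
noncomputable def lin {d : ℕ} (A : Fin d → Fin d → ℝ) (x : EuclideanSpace ℝ (Fin d)) :
    EuclideanSpace ℝ (Fin d) :=
  WithLp.toLp 2 fun i => ∑ j, A i j * x j

/-- The final theorem. -/
def FINAL : Prop := ∀ (d : ℕ), 2 ≤ d → ∀ Ω : Set (EuclideanSpace ℝ (Fin d)),
  ∀ᵐ A : Fin d → Fin d → ℝ, μH[((2 * d - 2 : ℕ) : ℝ)] (PerLe (lin A '' Ω) d) = 0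

end Pool.Agent.TH597.IV
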