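import Pool.Agent.TH597.IV.Stm
import Pool.Agent.TH857.IV_MCONST
import Pool.Agent.TH521.IV_LINALG
import Pool.Agent.TH626.IV_NULL
import Pool.Agent.TH757.IV_LOC
import Pool.Agent.TH698.IV_OPER
import Pool.Agent.TH858.IV_FINAL

set_option autoImplicit false

namespace Pool.Agent.TH597.IV

/-- The theorem. -/
theorem main : FINAL :=
  Pool.Agent.TH858.IV_FINAL.final (Pool.Agent.TH698.IV_OPER.oper
    (Pool.Agent.TH626.IV_NULL.null Pool.Agent.TH857.IV_MCONST.mconst Pool.Agent.TH521.IV_LINALG.linalg)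
    Pool.Agent.TH757.IV_LOC.loc)

end Pool.Agent.TH597.IV
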